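import Pool.Agent.W5h36.LQ.Alg

/-!
# The group algebra over `ℚ_2` of the product of the quaternion group and a group of exponent two
-/

set_option autoImplicit false

namespace Pool.Agent.W5h36.LQ

open Finset MonoidAlgebra QuaternionGroup

/-- no nilpotent elements -/
def RedG (F G : Type) [Field F] [Group G] : Prop := ∀ x : MonoidAlgebra F G, x * x = 0 → x = 0

theorem RedG.of_equiv {F G H : Type} [Field F] [Group G] [Group H] (e : G ≃* H)
    (h : RedG F H) : RedG F G := by
  intro x hx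
  let φ := MonoidAlgebra.mapDomainRingHom F (e : G →* H)
  have hinj : Function.Injective φ := MonoidAlgebra.mapDomain_injective e.injective
  apply hinj
  rw [map_zero]
  apply h
  rw [← map_mul, hx, map_zero]

theorem Red.of_redG {F G : Type} [Field F] [Group G] (h : RedG F G) (D : Subgroup G) :
    Red F D := fun x _ hx => h x hx

section two

variable {F G : Type} [Field F] [Group G]

/-- the two homomorphisms -/
noncomputable def psi (F : Type) [Field F] {G : Type} [Group G] (s : ℤˣ) :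
    G × Multiplicative (ZMod 2) →* MonoidAlgebra F G where
  toFun g := single g.1 (((if g.2 = 1 then 1 else s : ℤˣ) : ℤ) : F)
  map_one' := by simp [MonoidAlgebra.one_def]
  map_mul' := by
    rintro ⟨g, a⟩ ⟨g', b⟩
    rw [single_mul_single]
    congr 1
    have h1 : ∀ (s : ℤˣ) (a b : Multiplicative (ZMod 2)),
        (((if a * b = 1 then 1 else s : ℤˣ)) : ℤ) =
          ((if a = 1 then 1 else s : ℤˣ) : ℤ) * ((if b = 1 then 1 else s : ℤˣ) : ℤ) := by
      decide
    have h2 := congrArg (fun z : ℤ => (z : F)) (h1 s a b)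
    push_cast at h2 ⊢
    exact h2

theorem lift_psi (s : ℤˣ) (x : MonoidAlgebra F (G × Multiplicative (ZMod 2))) (g : G) :
    (MonoidAlgebra.lift F (MonoidAlgebra F G) _ (psi F s) x).coeff g =
      x.coeff (g, 1) + ((s : ℤ) : F) * x.coeff (g, Multiplicative.ofAdd 1) := by
  classical
  induction x using MonoidAlgebra.induction_linear with
  | zero => simp
  | add a b ha hb =>
    rw [map_add, coeff_add, Finsupp.add_apply, ha, hb, coeff_add, Finsupp.add_apply,
      Finsupp.add_apply]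
    ring
  | single m r =>
    obtain ⟨m, a⟩ := m
    rw [lift_single]
    change (r • single m ((((if a = 1 then 1 else s : ℤˣ)) : ℤ) : F)).coeff g = _
    rw [coeff_smul, Finsupp.smul_apply, coeff_single, coeff_single, Finsupp.single_apply,
      Finsupp.single_apply, Finsupp.single_apply]
    have h0 : (1 : Multiplicative (ZMod 2)) ≠ Multiplicative.ofAdd 1 := by decide
    by_cases hm : m = g
    · subst hm
      have ha : a = 1 ∨ a = Multiplicative.ofAdd 1 := by
        revert a; decide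
      rcases ha with rfl | rfl
      · simp [h0]
      · simp [h0, h0.symm, mul_comm]
    · simp [hm]

/-- adding a factor of order two -/
theorem redG_prod [CharZero F] (h : RedG F G) : RedG F (G × Multiplicative (ZMod 2)) := by
  intro x hx
  have key : ∀ s, MonoidAlgebra.lift F (MonoidAlgebra F G) _ (psi F s) x = 0 := by
    intro s
    apply h
    rw [← map_mul, hx, map_zero]
  have h1 : ∀ (s : ℤˣ) (g : G), x.coeff (g, 1) +
      ((s : ℤ) : F) * x.coeff (g, Multiplicative.ofAdd 1) = 0 := by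
    intro s g
    rw [← lift_psi, key]
    simp
  apply MonoidAlgebra.coeff_injective
  ext ⟨g, a⟩
  have h2 := h1 1 g
  have h3 := h1 (-1) g
  simp only [Units.val_one, Int.cast_one, one_mul, Units.val_neg, Int.cast_neg, neg_mul] at h2 h3
  have h4 : (2 : F) ≠ 0 := two_ne_zero
  have h5 : x.coeff (g, 1) = 0 := by
    have : (2 : F) * x.coeff (g, 1) = 0 := by linear_combination h2 + h3
    exact (mul_eq_zero.1 this).resolve_left h4
  have h6 : x.coeff (g, Multiplicative.ofAdd 1) = 0 := by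
    have : (2 : F) * x.coeff (g, Multiplicative.ofAdd 1) = 0 := by linear_combination h2 - h3
    exact (mul_eq_zero.1 this).resolve_left h4
  have ha : a = 1 ∨ a = Multiplicative.ofAdd 1 := by
    revert a; decide
  rcases ha with rfl | rfl
  · rw [h5]; rfl
  · rw [h6]; rfl

theorem redG_pow [CharZero F] (h : RedG F G) (n : ℕ) :
    RedG F (G × (Fin n → Multiplicative (ZMod 2))) := by
  induction n with
  | zero =>
    let e : G × (Fin 0 → Multiplicative (ZMod 2)) ≃* G :=
      { toFun := fun x => x.1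
        invFun := fun g => (g, 1)
        left_inv := fun x => Prod.ext rfl (Subsingleton.elim _ _)
        right_inv := fun _ => rfl
        map_mul' := fun _ _ => rfl }
    exact RedG.of_equiv e h
  | succ n ih =>
    let e : G × (Fin (n + 1) → Multiplicative (ZMod 2)) ≃*
        (G × (Fin n → Multiplicative (ZMod 2))) × Multiplicative (ZMod 2) :=
      { toFun := fun x => ((x.1, fun i => x.2 i.succ), x.2 0)
        invFun := fun y => (y.1.1, Fin.cons y.2 y.1.2)
        left_inv := fun x => by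
          refine Prod.ext rfl ?_
          funext i
          refine Fin.cases ?_ (fun i => ?_) i
          · rfl
          · rfl
        right_inv := fun _ => rfl
        map_mul' := fun _ _ => rfl }
    exact RedG.of_equiv e (redG_prod ih)

end two

section aniso

/-- the form `x ^ 2 + y ^ 2 + z ^ 2` is anisotropic over `ℚ_2` -/
theorem three_sq {x y z : ℚ_[2]} (h : x ^ 2 + y ^ 2 + z ^ 2 = 0) : x = 0 ∧ y = 0 ∧ z = 0 := by
  have key : ∀ u v : ℤ_[2], 1 + u ^ 2 + v ^ 2 ≠ 0 := by
    intro u v huv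
    have h1 := congrArg (PadicInt.toZModPow (p := 2) 2) huv
    rw [map_add, map_add, map_pow, map_pow, map_one, map_zero] at h1
    have h2 : ∀ a b : ZMod (2 ^ 2), 1 + a ^ 2 + b ^ 2 ≠ 0 := by decide
    exact h2 _ _ h1
  have key2 : ∀ a b c : ℚ_[2], a ≠ 0 → ‖b‖ ≤ ‖a‖ → ‖c‖ ≤ ‖a‖ → a ^ 2 + b ^ 2 + c ^ 2 ≠ 0 := by
    intro a b c ha hb hc h0
    have ha' : 0 < ‖a‖ := norm_pos_iff.2 ha
    have hu : ‖b / a‖ ≤ 1 := by rw [norm_div, div_le_one ha']; exact hb
    have hv : ‖c / a‖ ≤ 1 := by rw [norm_div, div_le_one ha']; exact hc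
    apply key ⟨b / a, hu⟩ ⟨c / a, hv⟩
    apply PadicInt.ext
    push_cast
    change 1 + (b / a) ^ 2 + (c / a) ^ 2 = 0
    field_simp
    linear_combination h0
  have key3 : ∀ a b c : ℚ_[2], ‖b‖ ≤ ‖a‖ → ‖c‖ ≤ ‖a‖ → a ^ 2 + b ^ 2 + c ^ 2 = 0 →
      a = 0 ∧ b = 0 ∧ c = 0 := by
    intro a b c hb hc h0
    by_cases ha : a = 0
    · subst ha
      rw [norm_zero] at hb hc
      exact ⟨rfl, norm_eq_zero.1 (le_antisymm hb (norm_nonneg _)),
        norm_eq_zero.1 (le_antisymm hc (norm_nonneg _))⟩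
    · exact absurd h0 (key2 a b c ha hb hc)
  rcases le_total ‖x‖ ‖y‖ with h1 | h1
  · rcases le_total ‖y‖ ‖z‖ with h2 | h2
    · obtain ⟨a, b, c⟩ := key3 z x y (h1.trans h2) h2 (by linear_combination h)
      exact ⟨b, c, a⟩
    · obtain ⟨a, b, c⟩ := key3 y x z h1 h2 (by linear_combination h)
      exact ⟨b, a, c⟩
  · rcases le_total ‖x‖ ‖z‖ with h2 | h2
    · obtain ⟨a, b, c⟩ := key3 z x y h2 (h1.trans h2) (by linear_combination h)
      exact ⟨b, c, a⟩
    · exact key3 x y z h1 h2 h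

end aniso

section quat

/-- multiplication of quaternions -/
def qm (x y : ℤ × ℤ × ℤ × ℤ) : ℤ × ℤ × ℤ × ℤ :=
  (x.1 * y.1 - x.2.1 * y.2.1 - x.2.2.1 * y.2.2.1 - x.2.2.2 * y.2.2.2,
   x.1 * y.2.1 + x.2.1 * y.1 + x.2.2.1 * y.2.2.2 - x.2.2.2 * y.2.2.1,
   x.1 * y.2.2.1 - x.2.1 * y.2.2.2 + x.2.2.1 * y.1 + x.2.2.2 * y.2.1,
   x.1 * y.2.2.2 + x.2.1 * y.2.2.1 - x.2.2.1 * y.2.1 + x.2.2.2 * y.1)

/-- the quaternions -/
def qq : QuaternionGroup 2 → ℤ × ℤ × ℤ × ℤ
  | a i => if i = 0 then (1, 0, 0, 0) else if i = 1 then (0, 1, 0, 0) else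
      if i = 2 then (-1, 0, 0, 0) else (0, -1, 0, 0)
  | xa i => if i = 0 then (0, 0, 1, 0) else if i = 1 then (0, 0, 0, -1) else
      if i = 2 then (0, 0, -1, 0) else (0, 0, 0, 1)

theorem qq_mul : ∀ x y : QuaternionGroup 2, qq (x * y) = qm (qq x) (qq y) := by decide

/-- the characters -/
def qc (s t : ℤ) : QuaternionGroup 2 → ℤ
  | a i => s ^ i.val
  | xa i => t * s ^ i.val

theorem qc_mul : ∀ (s t : ℤˣ) (x y : QuaternionGroup 2), qc s t (x * y) = qc s t x * qc s t y := by
  decide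

theorem univ_quat : (univ : Finset (QuaternionGroup 2)) =
    {a 0, a 1, a 2, a 3, xa 0, xa 1, xa 2, xa 3} := by decide

theorem sum_quat {M : Type} [AddCommMonoid M] (f : QuaternionGroup 2 → M) :
    ∑ g, f g = f (a 0) + (f (a 1) + (f (a 2) + (f (a 3) + (f (xa 0) + (f (xa 1) +
      (f (xa 2) + f (xa 3))))))) := by
  rw [univ_quat]
  repeat rw [sum_insert (by decide)]
  rw [sum_singleton]

open Quaternion in
/-- the quaternion with given components -/
noncomputable def mkq (a b c d : ℚ_[2]) : ℍ[ℚ_[2]] := ⟨a, b, c, d⟩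

theorem mkq_re (a b c d : ℚ_[2]) : (mkq a b c d).re = a := rfl
theorem mkq_imI (a b c d : ℚ_[2]) : (mkq a b c d).imI = b := rfl
theorem mkq_imJ (a b c d : ℚ_[2]) : (mkq a b c d).imJ = c := rfl
theorem mkq_imK (a b c d : ℚ_[2]) : (mkq a b c d).imK = d := rfl

open Quaternion in
/-- the homomorphism to the quaternions -/
noncomputable def hq : QuaternionGroup 2 →* ℍ[ℚ_[2]] where
  toFun g := mkq ((qq g).1 : ℚ_[2]) ((qq g).2.1 : ℚ_[2]) ((qq g).2.2.1 : ℚ_[2])
    ((qq g).2.2.2 : ℚ_[2])
  map_one' := by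
    have h : qq 1 = (1, 0, 0, 0) := by decide
    rw [h]
    apply Quaternion.ext
    · rw [mkq_re]
      simp
    · rw [mkq_imI]
      simp
    · rw [mkq_imJ]
      simp
    · rw [mkq_imK]
      simp
  map_mul' x y := by
    rw [qq_mul]
    apply Quaternion.ext
    · rw [Quaternion.re_mul]
      simp only [mkq_re, mkq_imI, mkq_imJ, mkq_imK, qm]
      push_cast
      ring
    · rw [Quaternion.imI_mul]
      simp only [mkq_re, mkq_imI, mkq_imJ, mkq_imK, qm]
      push_cast
      ring
    · rw [Quaternion.imJ_mul]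
      simp only [mkq_re, mkq_imI, mkq_imJ, mkq_imK, qm]
      push_cast
      ring
    · rw [Quaternion.imK_mul]
      simp only [mkq_re, mkq_imI, mkq_imJ, mkq_imK, qm]
      push_cast
      ring

/-- the characters -/
noncomputable def hc (s t : ℤˣ) : QuaternionGroup 2 →* ℚ_[2] where
  toFun g := (qc s t g : ℚ_[2])
  map_one' := by
    have h : ∀ s t : ℤˣ, qc s t 1 = 1 := by decide
    rw [h]
    simp
  map_mul' x y := by
    rw [qc_mul]
    push_cast
    rfl

open Quaternion in
theorem redG_quat : RedG ℚ_[2] (QuaternionGroup 2) := by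
  intro x hx
  -- the characters
  have h1 : ∀ s t : ℤˣ, ∑ g, x.coeff g * (qc s t g : ℚ_[2]) = 0 := by
    intro s t
    have h2 : (MonoidAlgebra.lift ℚ_[2] ℚ_[2] _ (hc s t) x) *
        (MonoidAlgebra.lift ℚ_[2] ℚ_[2] _ (hc s t) x) = 0 := by
      rw [← map_mul, hx, map_zero]
    have h3 := mul_self_eq_zero.1 h2
    rw [MonoidAlgebra.lift_apply, Finsupp.sum_fintype] at h3
    · exact h3
    · intro i
      exact zero_smul _ _
  -- the quaternions
  set q := MonoidAlgebra.lift ℚ_[2] ℍ[ℚ_[2]] _ hq x with hqdef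
  have hqq : q * q = 0 := by rw [hqdef, ← map_mul, hx, map_zero]
  have e0 := congrArg QuaternionAlgebra.re hqq
  have e1 := congrArg QuaternionAlgebra.imI hqq
  have e2 := congrArg QuaternionAlgebra.imJ hqq
  have e3 := congrArg QuaternionAlgebra.imK hqq
  simp only [Quaternion.re_mul, Quaternion.imI_mul, Quaternion.imJ_mul, Quaternion.imK_mul,
    Quaternion.re_zero, Quaternion.imI_zero, Quaternion.imJ_zero, Quaternion.imK_zero] at e0 e1 e2 e3
  have h2ne : (2 : ℚ_[2]) ≠ 0 := two_ne_zero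
  have hre : q.re = 0 := by
    by_contra hne
    have f1 : q.imI = 0 := by
      have : (2 * q.re) * q.imI = 0 := by linear_combination e1
      exact (mul_eq_zero.1 this).resolve_left (mul_ne_zero h2ne hne)
    have f2 : q.imJ = 0 := by
      have : (2 * q.re) * q.imJ = 0 := by linear_combination e2
      exact (mul_eq_zero.1 this).resolve_left (mul_ne_zero h2ne hne)
    have f3 : q.imK = 0 := by
      have : (2 * q.re) * q.imK = 0 := by linear_combination e3
      exact (mul_eq_zero.1 this).resolve_left (mul_ne_zero h2ne hne)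
    rw [f1, f2, f3] at e0
    apply hne
    have : q.re * q.re = 0 := by linear_combination e0
    exact mul_self_eq_zero.1 this
  obtain ⟨g1, g2, g3⟩ := three_sq (x := q.imI) (y := q.imJ) (z := q.imK)
    (by rw [hre] at e0; linear_combination -e0)
  have hsum : q = ∑ g, x.coeff g • hq g := by
    rw [hqdef, MonoidAlgebra.lift_apply, Finsupp.sum_fintype]
    intro i
    exact zero_smul ℚ_[2] (hq i)
  have hq0 : q = 0 := by
    ext
    · exact hre
    · exact g1
    · exact g2
    · exact g3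
  rw [hq0] at hsum
  rw [sum_quat] at hsum
  have k0 := congrArg QuaternionAlgebra.re hsum
  have k1 := congrArg QuaternionAlgebra.imI hsum
  have k2 := congrArg QuaternionAlgebra.imJ hsum
  have k3 := congrArg QuaternionAlgebra.imK hsum
  have c1 := h1 1 1
  have c2 := h1 1 (-1)
  have c3 := h1 (-1) 1
  have c4 := h1 (-1) (-1)
  rw [sum_quat] at c1 c2 c3 c4
  have v0 : ∀ s t : ℤˣ, qc s t (a 0) = 1 := by decide
  have v1 : ∀ s t : ℤˣ, qc s t (a 1) = s := by decide
  have v2 : ∀ s t : ℤˣ, qc s t (a 2) = 1 := by decide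
  have v3 : ∀ s t : ℤˣ, qc s t (a 3) = s := by decide
  have w0 : ∀ s t : ℤˣ, qc s t (xa 0) = t := by decide
  have w1 : ∀ s t : ℤˣ, qc s t (xa 1) = t * s := by decide
  have w2 : ∀ s t : ℤˣ, qc s t (xa 2) = t := by decide
  have w3 : ∀ s t : ℤˣ, qc s t (xa 3) = t * s := by decide
  simp only [v0, v1, v2, v3, w0, w1, w2, w3] at c1 c2 c3 c4
  simp only [Units.val_one, Units.val_neg, Int.cast_one, Int.cast_neg, Int.cast_mul] at c1 c2 c3 c4
  have y0 : qq (a 0) = (1, 0, 0, 0) := by decide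
  have y1 : qq (a 1) = (0, 1, 0, 0) := by decide
  have y2 : qq (a 2) = (-1, 0, 0, 0) := by decide
  have y3 : qq (a 3) = (0, -1, 0, 0) := by decide
  have z0 : qq (xa 0) = (0, 0, 1, 0) := by decide
  have z1 : qq (xa 1) = (0, 0, 0, -1) := by decide
  have z2 : qq (xa 2) = (0, 0, -1, 0) := by decide
  have z3 : qq (xa 3) = (0, 0, 0, 1) := by decide
  have hv : ∀ g, hq g = mkq ((qq g).1 : ℚ_[2]) ((qq g).2.1 : ℚ_[2]) ((qq g).2.2.1 : ℚ_[2])
    ((qq g).2.2.2 : ℚ_[2]) := fun g => rfl
  simp only [hv, mkq_re, mkq_imI, mkq_imJ, mkq_imK, y0, y1, y2, y3, z0, z1, z2, z3, Quaternion.re_add, Quaternion.imI_add,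
    Quaternion.imJ_add, Quaternion.imK_add, Quaternion.re_smul, Quaternion.imI_smul,
    Quaternion.imJ_smul, Quaternion.imK_smul, Quaternion.re_zero, Quaternion.imI_zero,
    Quaternion.imJ_zero, Quaternion.imK_zero, Int.cast_zero, Int.cast_one, Int.cast_neg,
    smul_eq_mul] at k0 k1 k2 k3
  have r0 : x.coeff (a 0) = 0 := by linear_combination (c1 + c2 + c3 + c4) / 8 - k0 / 2
  have r1 : x.coeff (a 1) = 0 := by linear_combination (c1 + c2 - c3 - c4) / 8 - k1 / 2
  have r2 : x.coeff (a 2) = 0 := by linear_combination (c1 + c2 + c3 + c4) / 8 + k0 / 2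
  have r3 : x.coeff (a 3) = 0 := by linear_combination (c1 + c2 - c3 - c4) / 8 + k1 / 2
  have t0 : x.coeff (xa 0) = 0 := by linear_combination (c1 - c2 + c3 - c4) / 8 - k2 / 2
  have t1 : x.coeff (xa 1) = 0 := by linear_combination (c1 - c2 - c3 + c4) / 8 + k3 / 2
  have t2 : x.coeff (xa 2) = 0 := by linear_combination (c1 - c2 + c3 - c4) / 8 + k2 / 2
  have t3 : x.coeff (xa 3) = 0 := by linear_combination (c1 - c2 - c3 + c4) / 8 - k3 / 2
  apply MonoidAlgebra.coeff_injective
  ext g
  have hg : g ∈ (univ : Finset (QuaternionGroup 2)) := mem_univ g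
  rw [univ_quat] at hg
  simp only [mem_insert, mem_singleton] at hg
  rcases hg with rfl | rfl | rfl | rfl | rfl | rfl | rfl | rfl
  · rw [r0]; rfl
  · rw [r1]; rfl
  · rw [r2]; rfl
  · rw [r3]; rfl
  · rw [t0]; rfl
  · rw [t1]; rfl
  · rw [t2]; rfl
  · rw [t3]; rfl

/-- **The groups.** -/
theorem redG_ham (n : ℕ) (G : Type) [Group G]
    (e : G ≃* QuaternionGroup 2 × (Fin n → Multiplicative (ZMod 2))) : RedG ℚ_[2] G :=
  RedG.of_equiv e (redG_pow redG_quat n)

end quat

end Pool.Agent.W5h36.LQ
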