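import Pool.Agent.W254.PA.LeoE

/-!
# A unit whose conjugates span
-/

set_option autoImplicit false

namespace Pool.Agent.W5h36.LQ

open Finset NumberField NumberField.Units Module
open Pool.Agent.W254.PA (gU ev ev_mul ev_torsion ev_prod_zpow ev_gal exists_zeta)

section

variable {k K : Type} [Field k] [NumberField k] [Field K] [NumberField K] [Algebra k K]

/-- the action on the units -/
noncomputable def aU (g : K ≃ₐ[k] K) : (𝓞 K)ˣ →* (𝓞 K)ˣ := gU (g.restrictScalars ℚ)

theorem aU_coe (g : K ≃ₐ[k] K) (x : (𝓞 K)ˣ) : ((aU g x : 𝓞 K) : K) = g ((x : 𝓞 K) : K) := rfl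

omit [NumberField K] in
theorem unit_ext {x y : (𝓞 K)ˣ} (h : ((x : 𝓞 K) : K) = ((y : 𝓞 K) : K)) : x = y := by
  apply Units.ext
  apply RingOfIntegers.ext
  exact h

theorem aU_mul (g h : K ≃ₐ[k] K) (x : (𝓞 K)ˣ) : aU (g * h) x = aU g (aU h x) :=
  unit_ext rfl

theorem aU_one (x : (𝓞 K)ˣ) : aU (1 : K ≃ₐ[k] K) x = x := unit_ext rfl

theorem place_aU (w : InfinitePlace K) (g : K ≃ₐ[k] K) (x : (𝓞 K)ˣ) :
    w (((aU g x : (𝓞 K)ˣ) : 𝓞 K) : K) = (g⁻¹ • w) ((x : 𝓞 K) : K) := by
  rw [aU_coe, InfinitePlace.smul_apply]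
  rfl

theorem exists_mink (w₁ : InfinitePlace K) : ∃ ε : (𝓞 K)ˣ,
    (∀ h : K ≃ₐ[k] K, h • w₁ = w₁ → aU h ε = ε) ∧
      ∀ w : InfinitePlace K, w ≠ w₁ → Real.log (w (((ε : (𝓞 K)ˣ) : 𝓞 K) : K)) < 0 := by
  classical
  obtain ⟨u, hu⟩ := dirichletUnitTheorem.exists_unit K w₁
  let D := MulAction.stabilizer (K ≃ₐ[k] K) w₁
  let _ : Fintype D := Fintype.ofFinite D
  refine ⟨∏ h : D, aU (h : K ≃ₐ[k] K) u, ?_, ?_⟩
  · intro h hh
    rw [map_prod]
    simp only [← aU_mul]
    exact Fintype.prod_equiv (Equiv.mulLeft (⟨h, hh⟩ : D)) _ _ (fun x => rfl)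
  · intro w hw
    have h1 : ((((∏ h : D, aU (h : K ≃ₐ[k] K) u : (𝓞 K)ˣ)) : 𝓞 K) : K) =
        ∏ h : D, (((aU (h : K ≃ₐ[k] K) u : (𝓞 K)ˣ) : 𝓞 K) : K) := by
      have h2 := Pool.Agent.W254.PA.coe_prod_zpow (F := K) (Finset.univ : Finset D)
        (fun h => aU (h : K ≃ₐ[k] K) u) (fun _ => 1)
      simpa only [zpow_one] using h2
    rw [h1, map_prod, Real.log_prod]
    · apply Finset.sum_neg
      · intro h _
        rw [place_aU]
        apply hu
        intro h2
        apply hw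
        rw [inv_smul_eq_iff] at h2
        rw [h2]
        exact h.2
      · exact ⟨1, Finset.mem_univ _⟩
    · intro h _
      exact (Units.pos_at_place _ w).ne'

theorem logEmb_ev (v : (𝓞 K)ˣ) : logEmbedding K (Additive.ofMul v) =
    ∑ i, (ev v i : ℝ) • logEmbedding K (Additive.ofMul (fundSystem K i)) := by
  obtain ⟨ζ, hζ, hx⟩ := exists_zeta v
  have h1 : logEmbedding K (Additive.ofMul ζ) = 0 :=
    dirichletUnitTheorem.logEmbedding_eq_zero_iff.2 hζ
  conv_lhs => rw [hx]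
  rw [ofMul_mul, map_add, h1, zero_add, ofMul_prod, map_sum]
  refine Finset.sum_congr rfl fun i _ => ?_
  rw [ofMul_zpow, map_zsmul]
  exact (Int.cast_smul_eq_zsmul ℝ _ _).symm

theorem span_mink (w₁ : InfinitePlace K) (hG : ∀ w : InfinitePlace K, ∃ g : K ≃ₐ[k] K, g • w₁ = w)
    (ε : (𝓞 K)ˣ) (hε : ∀ w : InfinitePlace K, w ≠ w₁ → Real.log (w (((ε : (𝓞 K)ˣ) : 𝓞 K) : K)) < 0)
    (F : Type) [Field F] [CharZero F] (b : Fin (rank K) → F) :
    ∃ x : (K ≃ₐ[k] K) → F, ∀ i, ∑ g, x g * ((ev (aU g ε) i : ℤ) : F) = b i := by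
  classical
  choose gw hgw using hG
  let W := {w : InfinitePlace K // w ≠ dirichletUnitTheorem.w₀}
  let v : W → (𝓞 K)ˣ := fun w => aU (gw w.1) ε
  have hv : ∀ (w : W) (w' : InfinitePlace K), w' ≠ w.1 →
      Real.log (w' (((v w : (𝓞 K)ˣ) : 𝓞 K) : K)) < 0 := by
    intro w w' hw'
    change Real.log (w' (((aU (gw w.1) ε : (𝓞 K)ˣ) : 𝓞 K) : K)) < 0
    rw [place_aU]
    apply hε
    intro h
    rw [inv_smul_eq_iff, hgw] at h
    exact hw' h
  let B := Pi.basisFun ℝ W
  let V : W → dirichletUnitTheorem.logSpace K := fun w => logEmbedding K (Additive.ofMul (v w))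
  have hdet : B.det V ≠ 0 := by
    rw [Basis.det_apply]
    refine det_ne_zero_of_sum_col_lt_diag (fun w ↦ ?_)
    simp_rw [Real.norm_eq_abs, B, Basis.coePiBasisFun.toMatrix_eq_transpose, Matrix.transpose_apply]
    rw [← sub_pos, sum_congr rfl (fun x hx ↦ abs_of_neg ?_), sum_neg_distrib, sub_neg_eq_add,
      sum_erase_eq_sub (mem_univ _), ← add_comm_sub]
    · refine add_pos_of_nonneg_of_pos ?_ ?_
      · rw [sub_nonneg]
        exact le_abs_self _
      · rw [dirichletUnitTheorem.sum_logEmbedding_component (v w)]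
        refine mul_pos_of_neg_of_neg ?_ (hv w _ w.prop.symm)
        rw [InfinitePlace.mult]; split_ifs <;> norm_num
    · refine mul_neg_of_pos_of_neg ?_ (hv w x.1 ?_)
      · rw [InfinitePlace.mult]; split_ifs <;> norm_num
      · exact Subtype.ext_iff.not.mp (ne_of_mem_erase hx)
  have hVli : LinearIndependent ℝ V := by
    rw [← isUnit_iff_ne_zero, ← Basis.is_basis_iff_det] at hdet
    exact hdet.1
  -- the map over `ℚ`
  let T : (W → ℚ) →ₗ[ℚ] (Fin (rank K) → ℚ) :=
    { toFun := fun c i => ∑ w, c w * ((ev (v w) i : ℤ) : ℚ)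
      map_add' := by
        intro a c
        funext i
        simp only [Pi.add_apply, add_mul, sum_add_distrib]
      map_smul' := by
        intro a c
        funext i
        simp only [Pi.smul_apply, smul_eq_mul, RingHom.id_apply, mul_sum, mul_assoc] }
  have hTinj : Function.Injective T := by
    rw [← LinearMap.ker_eq_bot, LinearMap.ker_eq_bot']
    intro c hc
    have h1 : ∑ w, ((c w : ℚ) : ℝ) • V w = 0 := by
      have h2 : ∀ w, V w = ∑ i, (ev (v w) i : ℝ) • logEmbedding K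
          (Additive.ofMul (fundSystem K i)) := fun w => logEmb_ev (v w)
      simp only [h2, smul_sum, smul_smul]
      rw [sum_comm]
      refine sum_eq_zero fun i _ => ?_
      rw [← sum_smul]
      have h3 := congrFun hc i
      change ∑ w, c w * ((ev (v w) i : ℤ) : ℚ) = 0 at h3
      have h4 := congrArg (fun q : ℚ => (q : ℝ)) h3
      push_cast at h4
      rw [h4, zero_smul]
    rw [Fintype.linearIndependent_iff] at hVli
    have h2 := hVli _ h1
    funext w
    exact_mod_cast h2 w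
  have hfr : finrank ℚ (W → ℚ) = finrank ℚ (Fin (rank K) → ℚ) := by
    rw [finrank_fintype_fun_eq_card, finrank_fintype_fun_eq_card, Fintype.card_fin]
    simp only [W, Fintype.card_subtype_compl, rank]
    congr 1
  have hTsurj : Function.Surjective T :=
    (LinearMap.injective_iff_surjective_of_finrank_eq_finrank hfr).1 hTinj
  choose c hc using fun i : Fin (rank K) => hTsurj (Pi.single i 1)
  refine ⟨fun g => ∑ w : W, if gw w.1 = g then ∑ j, b j * ((c j w : ℚ) : F) else 0, fun i => ?_⟩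
  have h1 : ∀ g : K ≃ₐ[k] K, (∑ w : W, if gw w.1 = g then ∑ j, b j * ((c j w : ℚ) : F) else 0) *
      ((ev (aU g ε) i : ℤ) : F) = ∑ w : W, if gw w.1 = g then
        (∑ j, b j * ((c j w : ℚ) : F)) * ((ev (v w) i : ℤ) : F) else 0 := by
    intro g
    rw [sum_mul]
    refine sum_congr rfl fun w _ => ?_
    split_ifs with h
    · rw [← h]
    · rw [zero_mul]
  simp only [h1]
  rw [sum_comm]
  simp only [sum_ite_eq, mem_univ, if_true, sum_mul]
  rw [sum_comm]
  have h2 : ∀ j, ∑ w, ((c j w : ℚ) : F) * ((ev (v w) i : ℤ) : F) = if i = j then 1 else 0 := by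
    intro j
    have h3 := congrFun (hc j) i
    change ∑ w, c j w * ((ev (v w) i : ℤ) : ℚ) = _ at h3
    rw [Pi.single_apply] at h3
    have h4 := congrArg (fun q : ℚ => (q : F)) h3
    push_cast at h4
    rw [h4]
    split_ifs <;> simp
  have h3 : ∀ j, ∑ w, b j * ((c j w : ℚ) : F) * ((ev (v w) i : ℤ) : F) =
      b j * (if i = j then 1 else 0) := by
    intro j
    rw [← h2 j, mul_sum]
    refine sum_congr rfl fun w _ => by ring
  simp only [h3]
  simp

end

end Pool.Agent.W5h36.LQ
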