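import Pool.Agent.W5h36.LQ.Alg
import Pool.Agent.W5h36.LQ.Unit
import Pool.Agent.Y944.LC.BRU

/-!
# Leopoldt's conjecture for reduced Hecke algebras
-/

set_option autoImplicit false

namespace Pool.Agent.W5h36.LQ

open Finset NumberField NumberField.Units Module MonoidAlgebra Filter Topology
open Pool.Agent.H637R2.Leo (Leopoldt padic_indep_of_int_indep)
open Pool.Agent.W245.PB (IsIwasawaLog brumer)
open Pool.Agent.W254.PA (gU ev ev_mul ev_torsion ev_prod_zpow ev_gal exists_zeta isU_unit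
  fund_indep log_unit)

section

variable {k K : Type} [Field k] [NumberField k] [Field K] [NumberField K] [Algebra k K]
  {p : ℕ} [hp : Fact p.Prime]

/-- the pairing with logarithms -/
noncomputable def Lam (L : PadicAlgCl p → PadicAlgCl p) (ε : (𝓞 K)ˣ) (σ : K →+* PadicAlgCl p) :
    MonoidAlgebra ℚ_[p] (K ≃ₐ[k] K) →ₗ[ℚ_[p]] PadicAlgCl p where
  toFun x := ∑ g, algebraMap ℚ_[p] (PadicAlgCl p) (x.coeff g) * L (σ (((aU g ε : (𝓞 K)ˣ) : 𝓞 K) : K))
  map_add' x y := by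
    rw [← sum_add_distrib]
    refine sum_congr rfl fun g _ => ?_
    rw [coeff_add, Finsupp.add_apply, map_add, add_mul]
  map_smul' c x := by
    rw [RingHom.id_apply, smul_sum]
    refine sum_congr rfl fun g _ => ?_
    rw [coeff_smul, Finsupp.smul_apply, smul_eq_mul, map_mul, Algebra.smul_def, mul_assoc]

theorem Lam_apply (L : PadicAlgCl p → PadicAlgCl p) (ε : (𝓞 K)ˣ) (σ : K →+* PadicAlgCl p)
    (x : MonoidAlgebra ℚ_[p] (K ≃ₐ[k] K)) : Lam L ε σ x =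
    ∑ g, algebraMap ℚ_[p] (PadicAlgCl p) (x.coeff g) * L (σ (((aU g ε : (𝓞 K)ˣ) : 𝓞 K) : K)) := rfl

/-- the exponents -/
noncomputable def Tht (ε : (𝓞 K)ˣ) :
    MonoidAlgebra ℚ_[p] (K ≃ₐ[k] K) →ₗ[ℚ_[p]] (Fin (rank K) → ℚ_[p]) where
  toFun x i := ∑ g, x.coeff g * ((ev (aU g ε) i : ℤ) : ℚ_[p])
  map_add' x y := by
    funext i
    rw [Pi.add_apply, ← sum_add_distrib]
    refine sum_congr rfl fun g _ => ?_
    rw [coeff_add, Finsupp.add_apply, add_mul]
  map_smul' c x := by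
    funext i
    rw [RingHom.id_apply, Pi.smul_apply, smul_sum]
    refine sum_congr rfl fun g _ => ?_
    rw [coeff_smul, Finsupp.smul_apply, smul_eq_mul, smul_eq_mul, mul_assoc]

theorem Tht_apply (ε : (𝓞 K)ˣ) (x : MonoidAlgebra ℚ_[p] (K ≃ₐ[k] K)) (i : Fin (rank K)) :
    Tht ε x i = ∑ g, x.coeff g * ((ev (aU g ε) i : ℤ) : ℚ_[p]) := rfl

theorem Lam_single_mul (L : PadicAlgCl p → PadicAlgCl p) (ε : (𝓞 K)ˣ) (σ : K →+* PadicAlgCl p)
    (a : K ≃ₐ[k] K) (r : ℚ_[p]) (x : MonoidAlgebra ℚ_[p] (K ≃ₐ[k] K)) :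
    Lam L ε σ (single a r * x) = algebraMap ℚ_[p] (PadicAlgCl p) r *
      Lam L ε (σ.comp (a : K →+* K)) x := by
  rw [Lam_apply, Lam_apply, mul_sum]
  refine (Fintype.sum_equiv (Equiv.mulLeft a) _ _ (fun g => ?_)).symm
  rw [coeff_single_mul_apply, Equiv.coe_mulLeft, inv_mul_cancel_left, map_mul, mul_assoc, aU_mul]
  rfl

theorem Lam_mul_single (L : PadicAlgCl p → PadicAlgCl p) {ε : (𝓞 K)ˣ} (σ : K →+* PadicAlgCl p)
    {a : K ≃ₐ[k] K} (ha : aU a ε = ε) (x : MonoidAlgebra ℚ_[p] (K ≃ₐ[k] K)) :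
    Lam L ε σ (x * single a 1) = Lam L ε σ x := by
  rw [Lam_apply, Lam_apply]
  refine (Fintype.sum_equiv (Equiv.mulRight a) _ _ (fun g => ?_)).symm
  rw [coeff_mul_single_apply, Equiv.coe_mulRight, mul_inv_cancel_right, mul_one, aU_mul, ha]

theorem Tht_mul_single {ε : (𝓞 K)ˣ} {a : K ≃ₐ[k] K} (ha : aU a ε = ε)
    (x : MonoidAlgebra ℚ_[p] (K ≃ₐ[k] K)) : Tht ε (x * single a 1) = Tht ε x := by
  funext i
  rw [Tht_apply, Tht_apply]
  refine (Fintype.sum_equiv (Equiv.mulRight a) _ _ (fun g => ?_)).symm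
  rw [coeff_mul_single_apply, Equiv.coe_mulRight, mul_inv_cancel_right, mul_one, aU_mul, ha]

theorem Tht_single_mul (ε : (𝓞 K)ˣ) (a : K ≃ₐ[k] K) (r : ℚ_[p])
    (x : MonoidAlgebra ℚ_[p] (K ≃ₐ[k] K)) (i : Fin (rank K)) : Tht ε (single a r * x) i =
      r * ∑ j, Tht ε x j * ((ev (aU a (fundSystem K j)) i : ℤ) : ℚ_[p]) := by
  have h1 : ∀ g : K ≃ₐ[k] K, ev (aU (a * g) ε) i =
      ∑ j, ev (aU g ε) j * ev (aU a (fundSystem K j)) i := by
    intro g
    rw [aU_mul]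
    have h2 := ev_gal (a.restrictScalars ℚ) (aU g ε)
    have h3 := congrFun h2 i
    rw [Finset.sum_apply] at h3
    exact h3
  rw [Tht_apply]
  have h2 : ∑ g, (single a r * x).coeff g * ((ev (aU g ε) i : ℤ) : ℚ_[p]) =
      ∑ g, r * (x.coeff g * ((ev (aU (a * g) ε) i : ℤ) : ℚ_[p])) := by
    refine (Fintype.sum_equiv (Equiv.mulLeft a) _ _ (fun g => ?_)).symm
    rw [coeff_single_mul_apply, Equiv.coe_mulLeft, inv_mul_cancel_left, mul_assoc]
  rw [h2, ← mul_sum]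
  congr 1
  simp only [h1, Tht_apply, sum_mul]
  push_cast
  simp only [mul_sum]
  rw [sum_comm]
  refine sum_congr rfl fun j _ => sum_congr rfl fun g _ => ?_
  ring

theorem Lam_mul_av (L : PadicAlgCl p → PadicAlgCl p) {ε : (𝓞 K)ˣ} (σ : K →+* PadicAlgCl p)
    {D : Subgroup (K ≃ₐ[k] K)} (hD : ∀ a ∈ D, aU a ε = ε) (x : MonoidAlgebra ℚ_[p] (K ≃ₐ[k] K)) :
    Lam L ε σ (x * av ℚ_[p] D) = Lam L ε σ x := by
  classical
  unfold av
  let _ := Fintype.ofFinite D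
  rw [mul_smul_comm, mul_sum, map_smul, map_sum,
    sum_congr rfl (fun (h : D) _ => Lam_mul_single L σ (hD h h.2) x), sum_const, card_univ,
    ← Nat.cast_smul_eq_nsmul ℚ_[p], smul_smul]
  have h1 : (Fintype.card D : ℚ_[p]) ≠ 0 := Nat.cast_ne_zero.2 Fintype.card_ne_zero
  rw [inv_mul_cancel₀ h1, one_smul]

theorem Tht_mul_av {ε : (𝓞 K)ˣ} {D : Subgroup (K ≃ₐ[k] K)} (hD : ∀ a ∈ D, aU a ε = ε)
    (x : MonoidAlgebra ℚ_[p] (K ≃ₐ[k] K)) : Tht ε (x * av ℚ_[p] D) = Tht ε x := by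
  classical
  unfold av
  let _ := Fintype.ofFinite D
  rw [mul_smul_comm, mul_sum, map_smul, map_sum,
    sum_congr rfl (fun (h : D) _ => Tht_mul_single (hD h h.2) x), sum_const, card_univ,
    ← Nat.cast_smul_eq_nsmul ℚ_[p], smul_smul]
  have h1 : (Fintype.card D : ℚ_[p]) ≠ 0 := Nat.cast_ne_zero.2 Fintype.card_ne_zero
  rw [inv_mul_cancel₀ h1, one_smul]

/-- the left ideal of the relations -/
noncomputable def JL (L : PadicAlgCl p → PadicAlgCl p) (ε : (𝓞 K)ˣ) :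
    Submodule (MonoidAlgebra ℚ_[p] (K ≃ₐ[k] K)) (MonoidAlgebra ℚ_[p] (K ≃ₐ[k] K)) where
  carrier := {x | ∀ σ, Lam L ε σ x = 0}
  add_mem' := fun {a b} ha hb σ => by rw [map_add, ha σ, hb σ, add_zero]
  zero_mem' := fun σ => map_zero _
  smul_mem' := by
    intro c x hx
    induction c using MonoidAlgebra.induction_linear with
    | zero => intro σ; rw [zero_smul, map_zero]
    | add f g hf hg => intro σ; rw [add_smul, map_add, hf σ, hg σ, add_zero]
    | single a r => intro σ; rw [smul_eq_mul, Lam_single_mul, hx, mul_zero]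

/-- the left ideal of the trivial relations -/
noncomputable def JT (ε : (𝓞 K)ˣ) :
    Submodule (MonoidAlgebra ℚ_[p] (K ≃ₐ[k] K)) (MonoidAlgebra ℚ_[p] (K ≃ₐ[k] K)) where
  carrier := {x | Tht ε x = 0}
  add_mem' := fun {a b} ha hb => by
    rw [Set.mem_setOf_eq] at ha hb ⊢
    rw [map_add, ha, hb, add_zero]
  zero_mem' := map_zero _
  smul_mem' := by
    intro c x hx
    rw [Set.mem_setOf_eq] at hx ⊢
    induction c using MonoidAlgebra.induction_linear with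
    | zero => rw [zero_smul, map_zero]
    | add f g hf hg => rw [add_smul, map_add, hf, hg, add_zero]
    | single a r =>
      funext i
      rw [smul_eq_mul, Tht_single_mul, hx]
      simp

variable {L : PadicAlgCl p → PadicAlgCl p} (hL : IsIwasawaLog p L)

include hL in
theorem Lam_eq (ε : (𝓞 K)ˣ) (σ : K →+* PadicAlgCl p) (x : MonoidAlgebra ℚ_[p] (K ≃ₐ[k] K)) :
    Lam L ε σ x = ∑ i, algebraMap ℚ_[p] (PadicAlgCl p) (Tht ε x i) *
      L (σ ((fundSystem K i : 𝓞 K) : K)) := by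
  rw [Lam_apply]
  have h1 : ∀ g : K ≃ₐ[k] K, L (σ (((aU g ε : (𝓞 K)ˣ) : 𝓞 K) : K)) =
      ∑ i, (ev (aU g ε) i : PadicAlgCl p) * L (σ ((fundSystem K i : 𝓞 K) : K)) :=
    fun g => log_unit hL σ (aU g ε)
  simp only [h1, Tht_apply, map_sum, map_mul, map_intCast, sum_mul, mul_sum]
  rw [sum_comm]
  refine sum_congr rfl fun i _ => sum_congr rfl fun g _ => ?_
  ring

include hL in
theorem Tht_of_alg (ε : (𝓞 K)ˣ) {x : MonoidAlgebra ℚ_[p] (K ≃ₐ[k] K)} (hx : x ∈ JL L ε)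
    (halg : ∀ g, IsAlgebraic ℚ (x.coeff g)) : Tht ε x = 0 := by
  obtain ⟨σ₀⟩ : Nonempty (K →+* PadicAlgCl p) :=
    ⟨((IsAlgClosed.lift : K →ₐ[ℚ] PadicAlgCl p) : K →+* PadicAlgCl p)⟩
  have h1 := hx σ₀
  rw [Lam_eq hL] at h1
  have h2 : ∀ i, IsAlgebraic ℚ (algebraMap ℚ_[p] (PadicAlgCl p) (Tht ε x i)) := by
    intro i
    rw [isAlgebraic_algebraMap_iff (algebraMap ℚ_[p] (PadicAlgCl p)).injective, Tht_apply,
      ← mem_algebraicClosure_iff]
    refine sum_mem fun g _ => mul_mem ?_ ?_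
    · exact mem_algebraicClosure_iff.2 (halg g)
    · exact mem_algebraicClosure_iff.2 (isAlgebraic_intCast _)
  have h3 := brumer hL (ι := Fin (rank K)) (fun i => σ₀ ((fundSystem K i : 𝓞 K) : K))
    (fun i => ((isU_unit _).map σ₀).ne) (fun i => ((isU_unit _).map σ₀).alg) (fund_indep hL σ₀) 0
    isAlgebraic_zero (fun i => algebraMap ℚ_[p] (PadicAlgCl p) (Tht ε x i)) h2
    (by rw [zero_add, h1])
  funext i
  have h4 := h3.2 i
  rwa [map_eq_zero] at h4

include hL in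
/-- **The kernel.** -/
theorem ker_eq {ε : (𝓞 K)ˣ} {D : Subgroup (K ≃ₐ[k] K)} (hD : ∀ a ∈ D, aU a ε = ε)
    (hred : Red ℚ_[p] D) {x : MonoidAlgebra ℚ_[p] (K ≃ₐ[k] K)} (hx : x ∈ JL L ε) :
    Tht ε x = 0 := by
  obtain ⟨e, heJ, heB, heI, hec⟩ := exists_idem D hred (JL L ε)
  have hee : e * e = e := heI e heJ (fun h hh => (heB h hh).2)
  have he : Tht ε e = 0 := Tht_of_alg hL ε heJ (coeff_alg heB hee hec)
  have h1 : x * av ℚ_[p] D ∈ JL L ε := by
    intro σ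
    rw [Lam_mul_av L σ hD, hx]
  have h2 : x * av ℚ_[p] D * e = x * av ℚ_[p] D :=
    heI _ h1 (fun h hh => by rw [mul_assoc, av_mul_single hh])
  have h3 : x * av ℚ_[p] D * e ∈ JT (p := p) ε := (JT ε).smul_mem _ he
  rw [h2] at h3
  rw [← Tht_mul_av hD]
  exact h3

end

/-- **Leopoldt's conjecture for reduced Hecke algebras.** -/
theorem leo (p : ℕ) [hp : Fact p.Prime] (k K : Type) [Field k] [NumberField k] [Field K]
    [NumberField K] [Algebra k K] [IsGalois k K] (hk : Subsingleton (InfinitePlace k))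
    (w : InfinitePlace K) (hred : Red ℚ_[p] (MulAction.stabilizer (K ≃ₐ[k] K) w)) :
    Leopoldt K p := by
  intro n ε _ hind a m hma hdiv
  obtain ⟨L, hL⟩ := Pool.Agent.W289.SL.exists_iwasawaLog p
  have hLa := Pool.Agent.Y944.LC.isLog_La hL
  obtain ⟨η, hη1, hη2⟩ := exists_mink (k := k) w
  have hG : ∀ w' : InfinitePlace K, ∃ g : K ≃ₐ[k] K, g • w = w' := fun w' =>
    InfinitePlace.exists_smul_eq_of_comap_eq (Subsingleton.elim _ _)
  -- the relation
  have hrel : ∀ σ : K →+* PadicAlgCl p, ∑ i, algebraMap ℚ_[p] (PadicAlgCl p) (a i : ℚ_[p]) *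
      Pool.Agent.Y944.LC.La L (σ ((ε i : 𝓞 K) : K)) = 0 := by
    intro σ
    apply (Pool.Agent.W254.PA.ic p).injective
    rw [map_sum, map_zero, ← Pool.Agent.Y944.LC.rel_of_lim hL n ε a m hma hdiv
      ((Pool.Agent.W254.PA.ic p).comp σ)]
    refine Finset.sum_congr rfl fun i _ => ?_
    have hne : σ ((ε i : 𝓞 K) : K) ≠ 0 := by
      rw [map_ne_zero]
      exact_mod_cast (ε i).ne_zero
    rw [map_mul, Pool.Agent.Y944.LC.ic_La hL _ hne]
    rfl
  -- the exponents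
  set b : Fin (rank K) → ℚ_[p] := fun j => ∑ i, (a i : ℚ_[p]) * ((ev (ε i) j : ℤ) : ℚ_[p]) with hb
  obtain ⟨x0, hx0⟩ := span_mink w hG η hη2 ℚ_[p] b
  let x : MonoidAlgebra ℚ_[p] (K ≃ₐ[k] K) := MonoidAlgebra.ofCoeff (Finsupp.equivFunOnFinite.symm x0)
  have hxT : Tht η x = b := by
    funext j
    rw [Tht_apply, ← hx0 j]
    rfl
  have hxJ : x ∈ JL (Pool.Agent.Y944.LC.La L) η := by
    intro σ
    rw [Lam_eq hLa, hxT, ← hrel σ]
    have h1 : ∀ i, Pool.Agent.Y944.LC.La L (σ ((ε i : 𝓞 K) : K)) =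
        ∑ j, (ev (ε i) j : PadicAlgCl p) *
          Pool.Agent.Y944.LC.La L (σ ((fundSystem K j : 𝓞 K) : K)) :=
      fun i => log_unit hLa σ (ε i)
    simp only [h1, hb, map_sum, map_mul, map_intCast, sum_mul, mul_sum]
    rw [sum_comm]
    refine sum_congr rfl fun i _ => sum_congr rfl fun g _ => ?_
    ring
  have hb0 : b = 0 := by
    rw [← hxT]
    exact ker_eq hLa (D := MulAction.stabilizer (K ≃ₐ[k] K) w) (fun h hh => hη1 h hh) hred hxJ
  -- conclusion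
  refine padic_indep_of_int_indep p (fun i j => ev (ε i) j) ?_ a ?_
  · intro c hc
    -- the product is a root of unity
    obtain ⟨ζ, hζ, hz⟩ := exists_zeta (∏ i, ε i ^ c i)
    have h1 : ev (∏ i, ε i ^ c i) = 0 := by
      rw [ev_prod_zpow]
      funext j
      rw [Finset.sum_apply]
      exact hc j
    rw [h1] at hz
    have h2 : ∏ i, ε i ^ c i = ζ := by
      rw [hz]; simp
    rw [torsion, CommGroup.mem_torsion, isOfFinOrder_iff_pow_eq_one] at hζ
    obtain ⟨N, hN, hN1⟩ := hζ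
    have h3 : ∏ i, ε i ^ (N * c i) = 1 := by
      rw [← hN1, ← h2, ← prod_pow]
      refine prod_congr rfl fun i _ => ?_
      rw [mul_comm, zpow_mul, zpow_natCast]
    have h4 := hind (fun i => N * c i) h3
    funext i
    have h5 := congrFun h4 i
    have h6 : (N : ℤ) * c i = 0 := h5
    rcases mul_eq_zero.1 h6 with h7 | h7
    · omega
    · exact h7
  · intro j
    have h1 := congrFun hb0 j
    have h2 : ∑ i, (a i : ℚ_[p]) * ((ev (ε i) j : ℤ) : ℚ_[p]) = 0 := h1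
    have h3 : PadicInt.Coe.ringHom (p := p) (∑ i, a i * ((ev (ε i) j : ℤ) : ℤ_[p])) = 0 := by
      rw [map_sum, ← h2]
      refine sum_congr rfl fun i _ => ?_
      rw [map_mul, map_intCast]
      rfl
    apply PadicInt.ext
    exact h3

end Pool.Agent.W5h36.LQ
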