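import Mathlib

/-!
# Idempotents of group algebras with algebraic coefficients
-/

set_option autoImplicit false

namespace Pool.Agent.W5h36.LQ

open Finset MonoidAlgebra

section

variable {F : Type} [Field F] {G : Type} [Group G]

/-- `x` is fixed by `D` from both sides -/
def Bi (D : Subgroup G) (x : MonoidAlgebra F G) : Prop :=
  ∀ h ∈ D, single h 1 * x = x ∧ x * single h 1 = x

/-- the algebra of the elements of the group algebra fixed by `D` from both sides has no
nilpotent elements -/
def Red (F : Type) [Field F] {G : Type} [Group G] (D : Subgroup G) : Prop :=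
  ∀ x : MonoidAlgebra F G, Bi D x → x * x = 0 → x = 0

variable [CharZero F] [Finite G]

open Classical in
/-- the average over `D` -/
noncomputable def av (F : Type) [Field F] {G : Type} [Group G] [Finite G] (D : Subgroup G) :
    MonoidAlgebra F G :=
  letI := Fintype.ofFinite D
  ((Fintype.card D : F)⁻¹) • ∑ h : D, single (h : G) 1

omit [CharZero F] in
theorem single_mul_av {D : Subgroup G} {h : G} (hh : h ∈ D) :
    single h 1 * av F D = av F D := by
  classical
  unfold av
  letI := Fintype.ofFinite D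
  rw [mul_smul_comm, mul_sum]
  congr 1
  simp only [single_mul_single, mul_one]
  exact Fintype.sum_equiv (Equiv.mulLeft (⟨h, hh⟩ : D)) _ _ (fun x => rfl)

omit [CharZero F] in
theorem av_mul_single {D : Subgroup G} {h : G} (hh : h ∈ D) :
    av F D * single h 1 = av F D := by
  classical
  unfold av
  letI := Fintype.ofFinite D
  rw [smul_mul_assoc, sum_mul]
  congr 1
  simp only [single_mul_single, mul_one]
  exact Fintype.sum_equiv (Equiv.mulRight (⟨h, hh⟩ : D)) _ _ (fun x => rfl)

theorem mul_av {D : Subgroup G} {x : MonoidAlgebra F G} (hx : ∀ h ∈ D, x * single h 1 = x) :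
    x * av F D = x := by
  classical
  unfold av
  letI := Fintype.ofFinite D
  rw [mul_smul_comm, mul_sum, sum_congr rfl (fun (h : D) _ => hx h h.2), sum_const, card_univ,
    ← Nat.cast_smul_eq_nsmul F, smul_smul, inv_mul_cancel₀, one_smul]
  exact Nat.cast_ne_zero.2 Fintype.card_ne_zero

/-- **The idempotent attached to a left ideal.** -/
theorem exists_idem (D : Subgroup G) (hred : Red F D)
    (J : Submodule (MonoidAlgebra F G) (MonoidAlgebra F G)) :
    ∃ e ∈ J, Bi D e ∧ (∀ x ∈ J, (∀ h ∈ D, x * single h 1 = x) → x * e = x) ∧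
      ∀ y, Bi D y → e * y = y * e := by
  classical
  let I : Submodule (MonoidAlgebra F G) (MonoidAlgebra F G) :=
    { carrier := {x | x ∈ J ∧ ∀ h ∈ D, x * single h 1 = x}
      add_mem' := by
        rintro a b ⟨ha, ha'⟩ ⟨hb, hb'⟩
        exact ⟨J.add_mem ha hb, fun h hh => by rw [add_mul, ha' h hh, hb' h hh]⟩
      zero_mem' := ⟨J.zero_mem, fun h _ => zero_mul _⟩
      smul_mem' := by
        rintro c x ⟨hx, hx'⟩
        refine ⟨J.smul_mem c hx, fun h hh => ?_⟩
        rw [smul_eq_mul, mul_assoc, hx' h hh] }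
  haveI : NeZero (Nat.card G : F) := ⟨Nat.cast_ne_zero.2 Nat.card_pos.ne'⟩
  obtain ⟨I', hI'⟩ := MonoidAlgebra.Submodule.exists_isCompl I
  obtain ⟨e0, he0, e', he', h1⟩ : ∃ e0 ∈ I, ∃ e' ∈ I', e0 + e' = 1 := by
    have h2 : (1 : MonoidAlgebra F G) ∈ I ⊔ I' := by
      rw [hI'.sup_eq_top]; exact Submodule.mem_top
    exact Submodule.mem_sup.1 h2
  have key : ∀ x ∈ I, x * e0 = x := by
    intro x hx
    have h2 : x * e0 + x * e' = x := by rw [← mul_add, h1, mul_one]
    have h3 : x * e' ∈ I := by
      have h4 : x * e' = x - x * e0 := by rw [eq_sub_iff_add_eq, add_comm]; exact h2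
      rw [h4]
      exact I.sub_mem hx (I.smul_mem x he0)
    have h4 : x * e' ∈ I' := I'.smul_mem x he'
    have h5 : x * e' = 0 := by
      have := hI'.disjoint
      rw [Submodule.disjoint_def] at this
      exact this _ h3 h4
    rw [h5, add_zero] at h2
    exact h2
  set e := av F D * e0 with he
  have heI : e ∈ I := I.smul_mem (av F D) he0
  have hBi : Bi D e := fun h hh => ⟨by rw [he, ← mul_assoc, single_mul_av hh], heI.2 h hh⟩
  have hxe : ∀ x ∈ I, x * e = x := by
    intro x hx
    rw [he, ← mul_assoc, mul_av hx.2, key x hx]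
  have hee : e * e = e := hxe e heI
  refine ⟨e, heI.1, hBi, fun x hx hx' => hxe x ⟨hx, hx'⟩, fun y hy => ?_⟩
  have hBm : ∀ a b : MonoidAlgebra F G, Bi D a → Bi D b → Bi D (a * b) := by
    intro a b ha hb h hh
    exact ⟨by rw [← mul_assoc, (ha h hh).1], by rw [mul_assoc, (hb h hh).2]⟩
  have hBs : ∀ a b : MonoidAlgebra F G, Bi D a → Bi D b → Bi D (a - b) := by
    intro a b ha hb h hh
    exact ⟨by rw [mul_sub, (ha h hh).1, (hb h hh).1], by rw [sub_mul, (ha h hh).2, (hb h hh).2]⟩
  have hey := hBm e y hBi hy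
  have hye := hBm y e hy hBi
  have heye := hBm _ e hey hBi
  have a1 : e * y - e * y * e = 0 := by
    apply hred _ (hBs _ _ hey heye)
    have h2 : e * (e * y) = e * y := by rw [← mul_assoc, hee]
    have h3 : ∀ t, e * (e * t) = e * t := fun t => by rw [← mul_assoc, hee]
    simp only [mul_sub, sub_mul, mul_assoc, h3, sub_self]
  have a2 : y * e - e * y * e = 0 := by
    apply hred _ (hBs _ _ hye heye)
    have h3 : ∀ t, e * (e * t) = e * t := fun t => by rw [← mul_assoc, hee]
    simp only [mul_sub, sub_mul, mul_assoc, h3, sub_self]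
  rw [sub_eq_zero] at a1 a2
  rw [a1, a2]

end

section trace

variable {F : Type} [Field F] {G : Type} [Group G] [Fintype G] [DecidableEq G]

/-- the matrix of the left multiplication -/
def Mx (x : MonoidAlgebra F G) : Matrix G G F := Matrix.of fun a b => x.coeff (a * b⁻¹)

omit [DecidableEq G] in
theorem Mx_mul (x y : MonoidAlgebra F G) : Mx (x * y) = Mx x * Mx y := by
  ext a c
  rw [Matrix.mul_apply]
  change (x * y).coeff (a * c⁻¹) = ∑ b, x.coeff (a * b⁻¹) * y.coeff (b * c⁻¹)
  rw [coeff_mul_apply_right, Finsupp.sum_fintype _ _ (fun i => mul_zero _)]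
  refine (Fintype.sum_equiv (Equiv.mulRight c⁻¹) _ _ (fun b => ?_)).symm
  simp [mul_assoc]

omit [DecidableEq G] in
theorem trace_Mx (x : MonoidAlgebra F G) : (Mx x).trace = Fintype.card G * x.coeff 1 := by
  unfold Matrix.trace Mx
  simp [Finset.card_univ]

/-- the trace of the product of commuting matrices, one idempotent, one with rational
coefficients, is algebraic -/
theorem trace_alg {Ω : Type} [Field Ω] [CharZero Ω] [IsAlgClosed Ω] {n : Type} [Fintype n]
    [DecidableEq n] (Y0 : Matrix n n ℚ) (P : Matrix n n Ω) (hP : P * P = P)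
    (hc : P * Y0.map (algebraMap ℚ Ω) = Y0.map (algebraMap ℚ Ω) * P) :
    IsAlgebraic ℚ (Y0.map (algebraMap ℚ Ω) * P).trace := by
  set Y := Y0.map (algebraMap ℚ Ω) with hY
  have hz : ∀ z : Ω, z ∈ (Y * P).charpoly.roots → z ∈ algebraicClosure ℚ Ω := by
    intro z hz
    rw [Polynomial.mem_roots (Matrix.charpoly_monic _).ne_zero] at hz
    rw [mem_algebraicClosure_iff]
    by_cases hz0 : z = 0
    · rw [hz0]; exact isAlgebraic_zero
    have h1 : (Matrix.scalar n z - Y * P).det = 0 := by
      have h2 := Matrix.eval_charpoly (Y * P) z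
      rw [Polynomial.IsRoot.def] at hz
      rw [← h2, hz]
    obtain ⟨v, hv, hv2⟩ := Matrix.exists_mulVec_eq_zero_iff.2 h1
    have h3 : (Y * P).mulVec v = z • v := by
      rw [Matrix.sub_mulVec, sub_eq_zero] at hv2
      rw [← hv2]
      ext i
      simp [Matrix.scalar_apply, Matrix.mulVec_diagonal]
    have h4 : z • P.mulVec v = z • v := by
      rw [← Matrix.mulVec_smul, ← h3, Matrix.mulVec_mulVec, ← mul_assoc, hc, mul_assoc, hP]
    have h5 : P.mulVec v = v := smul_right_injective _ hz0 h4
    have h6 : Y.mulVec v = z • v := by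
      rw [← h3, ← Matrix.mulVec_mulVec, h5]
    have h7 : (Matrix.scalar n z - Y).det = 0 := by
      apply Matrix.exists_mulVec_eq_zero_iff.1
      refine ⟨v, hv, ?_⟩
      rw [Matrix.sub_mulVec, sub_eq_zero, h6]
      ext i
      simp [Matrix.scalar_apply, Matrix.mulVec_diagonal]
    have h8 : Y.charpoly.eval z = 0 := by rw [Matrix.eval_charpoly, h7]
    have h9 : Polynomial.aeval z Y0.charpoly = 0 := by
      rw [← Polynomial.eval_map_algebraMap, ← h8, hY, Matrix.charpoly_map]
    exact ⟨Y0.charpoly, (Matrix.charpoly_monic _).ne_zero, h9⟩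
  rw [Matrix.trace_eq_sum_roots_charpoly, ← mem_algebraicClosure_iff]
  exact multiset_sum_mem _ hz

end trace

section alg

variable {F : Type} [Field F] [CharZero F] {G : Type} [Group G] [Finite G]

/-- **The idempotent has algebraic coefficients.** -/
theorem coeff_alg {D : Subgroup G} {e : MonoidAlgebra F G} (hB : Bi D e) (hee : e * e = e)
    (hc : ∀ y, Bi D y → e * y = y * e) (g : G) : IsAlgebraic ℚ (e.coeff g) := by
  classical
  letI := Fintype.ofFinite G
  set f := av F D with hf
  have hef : e * f = e := mul_av (fun h hh => (hB h hh).2)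
  have hfe : f * e = e := by
    unfold f av
    letI := Fintype.ofFinite D
    rw [smul_mul_assoc, sum_mul, sum_congr rfl (fun (h : D) _ => (hB h h.2).1), sum_const,
      card_univ, ← Nat.cast_smul_eq_nsmul F, smul_smul, inv_mul_cancel₀, one_smul]
    exact Nat.cast_ne_zero.2 Fintype.card_ne_zero
  set y := f * single g⁻¹ 1 * f with hy
  have hyB : Bi D y := by
    intro h hh
    constructor
    · rw [hy, ← mul_assoc, ← mul_assoc, hf, single_mul_av hh]
    · rw [hy, mul_assoc, hf, av_mul_single hh]
  -- the trace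
  have h1 : (Mx (y * e)).trace = Fintype.card G * e.coeff g := by
    have h2 : e * single g⁻¹ 1 * e = y * e := by
      rw [← hc y hyB, hy]
      calc e * single g⁻¹ 1 * e = (e * f) * single g⁻¹ 1 * (f * e) := by rw [hef, hfe]
        _ = e * (f * single g⁻¹ 1 * f) * e := by simp only [mul_assoc]
        _ = (f * single g⁻¹ 1 * f) * e * e := by rw [hc y hyB]
        _ = (f * single g⁻¹ 1 * f) * e := by rw [mul_assoc _ e e, hee]
        _ = e * (f * single g⁻¹ 1 * f) := (hc y hyB).symm
    rw [← h2, Mx_mul, Matrix.trace_mul_comm, ← Mx_mul, ← mul_assoc, hee, trace_Mx,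
      coeff_mul_single_apply, inv_inv, one_mul, mul_one]
  -- rationality of `y`
  set fQ : MonoidAlgebra ℚ G := av ℚ D with hfQ
  set yQ : MonoidAlgebra ℚ G := fQ * single g⁻¹ 1 * fQ with hyQ
  let φ : MonoidAlgebra ℚ G →+* MonoidAlgebra F G := MonoidAlgebra.mapRingHom G (algebraMap ℚ F)
  have hφc : ∀ (x : MonoidAlgebra ℚ G) (a : G), (φ x).coeff a = algebraMap ℚ F (x.coeff a) := by
    intro x a
    rfl
  have hφf : φ fQ = f := by
    rw [hfQ, hf]
    unfold av
    letI := Fintype.ofFinite D
    ext a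
    rw [hφc]
    simp only [coeff_smul, Finsupp.smul_apply, coeff_sum, Finsupp.finsetSum_apply, smul_eq_mul,
      map_mul, map_sum, map_inv₀, map_natCast, coeff_single, Finsupp.single_apply]
    congr 1
    refine sum_congr rfl fun h _ => ?_
    split_ifs <;> simp
  have hφs : ∀ a : G, φ (single a 1) = single a 1 := by
    intro a
    ext b
    rw [hφc]
    simp only [coeff_single, Finsupp.single_apply]
    split_ifs <;> simp
  have hφy : φ yQ = y := by
    rw [hyQ, hy, map_mul, map_mul, hφf, hφs]
  let Ω := AlgebraicClosure F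
  have h4 : (Mx yQ).map (algebraMap ℚ Ω) = (Mx y).map (algebraMap F Ω) := by
    rw [← hφy]
    ext a b
    change algebraMap ℚ Ω (yQ.coeff _) = algebraMap F Ω ((φ yQ).coeff _)
    rw [hφc, ← IsScalarTower.algebraMap_apply]
  have h3 := trace_alg (Ω := Ω) (Mx yQ) ((Mx e).map (algebraMap F Ω))
    (by rw [← Matrix.map_mul, ← Mx_mul, hee])
    (by rw [h4, ← Matrix.map_mul, ← Matrix.map_mul, ← Mx_mul, ← Mx_mul, hc y hyB])
  rw [h4, ← Matrix.map_mul, ← Mx_mul] at h3
  have h5 : ((Mx (y * e)).map (algebraMap F Ω)).trace = algebraMap F Ω (Mx (y * e)).trace := by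
    unfold Matrix.trace
    rw [map_sum]
    rfl
  rw [h5, h1, map_mul, map_natCast] at h3
  have h6 : algebraMap F Ω (e.coeff g) =
      ((Fintype.card G : Ω) * algebraMap F Ω (e.coeff g)) * (Fintype.card G : Ω)⁻¹ := by
    have h8 : (Fintype.card G : Ω) ≠ 0 := Nat.cast_ne_zero.2 Fintype.card_ne_zero
    rw [mul_comm (Fintype.card G : Ω), mul_assoc, mul_inv_cancel₀ h8, mul_one]
  rw [← isAlgebraic_algebraMap_iff (algebraMap F Ω).injective, h6]
  refine h3.mul ?_
  have h7 : IsAlgebraic ℚ ((Fintype.card G : Ω)) := isAlgebraic_natCast _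
  exact h7.inv

end alg

end Pool.Agent.W5h36.LQ
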